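import Pool.Agent.U378.TF.R7.Tab
import Pool.Agent.U378.TF.Bm

/-! Checks of the leaves. -/

set_option autoImplicit false
set_option maxRecDepth 100000

namespace Pool.Agent.U378.TF.R7

open Pool.Agent.U378.TF

theorem lf5 : nestP 5 Bm.b5 (leafB TY PA T X) = true := by decide +kernel

theorem lf17 : nestP 17 Bm.b17 (leafB TY PA T X) = true := by decide +kernel

end Pool.Agent.U378.TF.R7
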