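import Pool.Agent.U378.TF.R7.Tab
import Pool.Agent.U378.TF.Bm

/-! Checks of the leaves. -/

set_option autoImplicit false
set_option maxRecDepth 100000

namespace Pool.Agent.U378.TF.R7

open Pool.Agent.U378.TF

theorem lf25 : nestP 25 Bm.b25 (leafB TY PA T X) = true := by decide +kernel

theorem lf38 : nestP 38 Bm.b38 (leafB TY PA T X) = true := by decide +kernel

theorem lf102 : nestP 102 Bm.b102 (leafB TY PA T X) = true := by decide +kernel

theorem lf3 : nestP 3 Bm.b3 (leafB TY PA T X) = true := by decide +kernel

theorem lf7 : nestP 7 Bm.b7 (leafB TY PA T X) = true := by decide +kernel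

theorem lf19 : nestP 19 Bm.b19 (leafB TY PA T X) = true := by decide +kernel

end Pool.Agent.U378.TF.R7
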