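import Pool.Agent.U378.TF.R7.Tab
import Pool.Agent.U378.TF.Psd

/-! The table 10 is positive semidefinite. -/

set_option autoImplicit false
set_option maxRecDepth 100000

namespace Pool.Agent.U378.TF.R7

open Pool.Agent.U378.TF

theorem co10 : colsB T 8388608 10 0 0 0 0 1 = true := by decide +kernel

theorem do10 : domB T 8388608 10 0 0 1 0 = true := by decide +kernel

theorem psd10 : Psd T 8388608 10 :=
  psd_pairs co10 do10 fun _ hi _ hj => ent_symm sym10 hi hj

end Pool.Agent.U378.TF.R7
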